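import Pool.Agent.N498.FE.Mono

/-!
# Project FE (helper183), CNT2, part 2: counting (helper498)
-/

set_option autoImplicit false
set_option linter.unusedSectionVars false

namespace Pool.Agent.N498.FE

open Module LieAlgebra LieModule

attribute [local instance 100] LieRing.ofAssociativeRing

lemma rank_sum {X : Type} [DecidableEq X] (W : Finset X) (F : X → ℚ)
    (hF : ∀ a ∈ W, ∀ b ∈ W, F a = F b → a = b) :
    3 * ∑ a ∈ W, 4 ^ ((W.filter fun b => F b ≤ F a).card - 1) + 1 ≤ 4 ^ W.card := by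
  refine Finset.induction_on_max_value F (motive := fun W => (∀ a ∈ W, ∀ b ∈ W, F a = F b → a = b) →
    3 * ∑ a ∈ W, 4 ^ ((W.filter fun b => F b ≤ F a).card - 1) + 1 ≤ 4 ^ W.card) W ?_ ?_ hF
  · intro _
    simp
  · intro a W ha hmax ih hinj
    have ih' := ih fun x hx y hy => hinj x (Finset.mem_insert_of_mem hx) y (Finset.mem_insert_of_mem hy)
    have hlt : ∀ x ∈ W, F x < F a := by
      intro x hx
      refine lt_of_le_of_ne (hmax x hx) fun h => ?_
      have := hinj x (Finset.mem_insert_of_mem hx) a (Finset.mem_insert_self _ _) h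
      rw [this] at hx
      exact ha hx
    rw [Finset.sum_insert ha, Finset.card_insert_of_notMem ha]
    have h1 : (insert a W).filter (fun b => F b ≤ F a) = insert a W := by
      rw [Finset.filter_true_of_mem]
      intro x hx
      rcases Finset.mem_insert.1 hx with rfl | hx
      · exact le_rfl
      · exact hmax x hx
    have h2 : ∑ x ∈ W, 4 ^ (((insert a W).filter fun b => F b ≤ F x).card - 1) =
        ∑ x ∈ W, 4 ^ ((W.filter fun b => F b ≤ F x).card - 1) := by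
      refine Finset.sum_congr rfl fun x hx => ?_
      rw [Finset.filter_insert, if_neg (not_le.2 (hlt x hx))]
    rw [h1, h2, Finset.card_insert_of_notMem ha, Nat.add_sub_cancel, pow_succ]
    omega

lemma final_sum {X : Type} [DecidableEq X] (W : Finset X) (F : X → ℚ)
    (hF : ∀ a ∈ W, ∀ b ∈ W, F a = F b → a = b) {s k : ℕ} (hk : W.card ≤ k) (top : Fin s → X)
    (htop : Function.Injective top) (hmem : ∀ i, top i ∈ W) (D w : Fin s → ℕ)
    (hD : ∀ i, D i ≤ 2 ^ (w i - 1)) (hw : ∀ i, w i ≤ (W.filter fun b => F b ≤ F (top i)).card) :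
    3 * ∑ i, D i ^ 2 + 1 ≤ 4 ^ k := by
  have h1 : ∑ i, D i ^ 2 ≤ ∑ a ∈ W, 4 ^ ((W.filter fun b => F b ≤ F a).card - 1) := by
    calc ∑ i, D i ^ 2 ≤ ∑ i, 4 ^ ((W.filter fun b => F b ≤ F (top i)).card - 1) := by
          refine Finset.sum_le_sum fun i _ => ?_
          calc D i ^ 2 ≤ (2 ^ (w i - 1)) ^ 2 := Nat.pow_le_pow_left (hD i) 2
            _ = 4 ^ (w i - 1) := by rw [← pow_mul, mul_comm, pow_mul]; norm_num
            _ ≤ 4 ^ ((W.filter fun b => F b ≤ F (top i)).card - 1) :=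
              Nat.pow_le_pow_right (by norm_num) (Nat.sub_le_sub_right (hw i) 1)
      _ = ∑ a ∈ Finset.univ.image top, 4 ^ ((W.filter fun b => F b ≤ F a).card - 1) := by
          rw [Finset.sum_image fun i _ j _ h => htop h]
      _ ≤ ∑ a ∈ W, 4 ^ ((W.filter fun b => F b ≤ F a).card - 1) := by
          refine Finset.sum_le_sum_of_subset ?_
          intro a ha
          obtain ⟨i, -, rfl⟩ := Finset.mem_image.1 ha
          exact hmem i
  have h2 := rank_sum W F hF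
  have h3 : 4 ^ W.card ≤ 4 ^ k := Nat.pow_le_pow_right (by norm_num) hk
  omega

section B

variable {Ω S Z : Type} [Field Ω] [IsAlgClosed Ω] [CharZero Ω] [LieRing S] [LieAlgebra Ω S]
  [FiniteDimensional Ω S] [LieAlgebra.IsKilling Ω S] [AddCommGroup Z] [Module Ω Z]
  {s : ℕ} (V : Fin s → Type) [∀ i, AddCommGroup (V i)] [∀ i, Module Ω (V i)]
  [∀ i, LieRingModule S (V i)] [∀ i, LieModule Ω S (V i)] [∀ i, FiniteDimensional Ω (V i)]
  [∀ i, Nontrivial (V i)]

theorem abs' (H : LieSubalgebra Ω S) [H.IsCartanSubalgebra] (k : ℕ) (ζ : Fin s → Module.Dual Ω Z)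
    (hirr : ∀ i, ∀ U : Submodule Ω (V i), (∀ x : S, ∀ u ∈ U, ⁅x, u⁆ ∈ U) → U = ⊥ ∨ U = ⊤)
    (hfew : ∀ (x : S) (z : Z) (t : Finset Ω), (∀ a ∈ t, ∃ i, ∃ b,
      (toEnd Ω S (V i) x).HasEigenvalue b ∧ a = b + ζ i z) → t.card ≤ k)
    (hiso : ∀ i j, i ≠ j → ζ i = ζ j → ∀ F : V i →ₗ[Ω] V j,
      (∀ (x : S) v, F ⁅x, v⁆ = ⁅x, F v⁆) → F = 0) :
    3 * ∑ i, finrank Ω (V i) ^ 2 + 1 ≤ 4 ^ k := by
  classical
  let I := Σ i : Fin s, Weight Ω H (V i)
  let Λ : I → Module.Dual Ω (H × Z) := fun a =>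
    (Weight.toLinear Ω H (V a.1) a.2).comp (LinearMap.fst Ω H Z) + (ζ a.1).comp (LinearMap.snd Ω H Z)
  have hΛ : ∀ a p, Λ a p = a.2 p.1 + ζ a.1 p.2 := fun a p => rfl
  let ι := {α : Weight Ω H S // α.IsNonZero} ⊕ {p : I × I // Λ p.1 ≠ Λ p.2}
  let φ : ι → Module.Dual Ω (H × Z) := Sum.elim
    (fun α => (Weight.toLinear Ω H S α.1).comp (LinearMap.fst Ω H Z))
    (fun p => Λ p.1.1 - Λ p.1.2)
  have hφ : ∀ i, ∃ x, φ i x ≠ 0 := by
    rintro (⟨α, hα⟩ | ⟨⟨a, b⟩, h⟩)
    · by_contra hcon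
      push Not at hcon
      exact hα (funext fun x => hcon (x, 0))
    · by_contra hcon
      push Not at hcon
      exact h (LinearMap.ext fun x => sub_eq_zero.1 (hcon x))
  obtain ⟨h, hh⟩ := Module.Dual.exists_forall_ne_zero_of_forall_exists φ hφ
  obtain ⟨ℓ, hℓ⟩ := Module.exists_dual_forall_apply_ne_zero (K := ℚ) (M := Ω) (fun i => φ i h) hh
  have hadd : ∀ χ ψ : H → Ω, ℓ ((χ + ψ) h.1) = ℓ (χ h.1) + ℓ (ψ h.1) := by
    intro χ ψ
    rw [Pi.add_apply, map_add]
  have hnz : ∀ α : Weight Ω H S, ℓ (α h.1) = 0 → α.IsZero := by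
    intro α h0
    by_contra hα
    exact hℓ (Sum.inl ⟨α, hα⟩) h0
  let W : Finset (Module.Dual Ω (H × Z)) := Finset.univ.image Λ
  have hWinj : ∀ a ∈ W, ∀ b ∈ W, ℓ (a h) = ℓ (b h) → a = b := by
    intro a ha b hb h0
    obtain ⟨a, -, rfl⟩ := Finset.mem_image.1 ha
    obtain ⟨b, -, rfl⟩ := Finset.mem_image.1 hb
    by_contra hne
    refine hℓ (Sum.inr ⟨(a, b), hne⟩) ?_
    show ℓ (Λ a h - Λ b h) = 0
    rw [map_sub]
    exact sub_eq_zero.2 h0
  have hcard : W.card ≤ k := by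
    have h1 : (W.image fun a => a h).card = W.card := by
      refine Finset.card_image_of_injOn ?_
      intro a ha b hb hab
      exact hWinj a ha b hb (congrArg ℓ hab)
    rw [← h1]
    refine hfew h.1.1 h.2 _ ?_
    intro a ha
    obtain ⟨b, hb, rfl⟩ := Finset.mem_image.1 ha
    obtain ⟨⟨i, μ⟩, -, rfl⟩ := Finset.mem_image.1 hb
    exact ⟨i, μ h.1, μ.hasEigenvalueAt h.1, rfl⟩
  have htop : ∀ i, ∃ lam : Weight Ω H (V i), ∀ μ : Weight Ω H (V i), ℓ (μ h.1) ≤ ℓ (lam h.1) :=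
    fun i => FEWT.exists_top (V := V i) (fun χ => ℓ (χ h.1))
  choose lam hlam using htop
  refine final_sum W (fun a => ℓ (a h)) hWinj hcard (fun i => Λ ⟨i, lam i⟩) ?_
    (fun i => Finset.mem_image_of_mem _ (Finset.mem_univ _)) (fun i => finrank Ω (V i))
    (fun i => Fintype.card (Weight Ω H (V i))) ?_ ?_
  · intro i j hij
    by_contra hne
    have h1 : ζ i = ζ j := by
      refine LinearMap.ext fun z => ?_
      have h2 := LinearMap.congr_fun hij ((0 : H), z)
      rw [hΛ, hΛ] at h2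
      have e1 : (lam i) (0 : H) = 0 := map_zero (Weight.toLinear Ω H (V i) (lam i))
      have e2 : (lam j) (0 : H) = 0 := map_zero (Weight.toLinear Ω H (V j) (lam j))
      simpa [e1, e2] using h2
    have h2 : ((lam i : Weight Ω H (V i)) : H → Ω) = lam j := by
      funext x
      have h3 := LinearMap.congr_fun hij (x, (0 : Z))
      rw [hΛ, hΛ] at h3
      simpa using h3
    obtain ⟨F, hF0, hF⟩ := hw (hirr i) (hirr j) (fun χ => ℓ (χ h.1)) hadd hnz (lam i) (hlam i)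
      (lam j) (hlam j) h2
    exact hF0 (hiso i j hne h1 F hF)
  · intro i
    exact dim_le (hirr i) (fun χ => ℓ (χ h.1)) hadd hnz
  · intro i
    rw [← Finset.card_univ]
    refine Finset.card_le_card_of_injOn (fun μ => Λ ⟨i, μ⟩) ?_ ?_
    · intro μ _
      refine Finset.mem_coe.2 (Finset.mem_filter.2 ⟨Finset.mem_image_of_mem _ (Finset.mem_univ _), ?_⟩)
      show ℓ (Λ ⟨i, μ⟩ h) ≤ ℓ (Λ ⟨i, lam i⟩ h)
      rw [hΛ, hΛ, map_add, map_add]
      have := hlam i μ
      linarith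
    · intro μ _ ν _ hμν
      refine Weight.ext fun x => ?_
      have h3 := LinearMap.congr_fun hμν (x, (0 : Z))
      have h4 : μ x + ζ i (0 : Z) = ν x + ζ i (0 : Z) := h3
      exact add_right_cancel h4

end B

end Pool.Agent.N498.FE
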