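import Pool.Agent.N498.FEWT

/-!
# Project FE (helper183), CNT2, part 1: monomials in lowering operators (helper498)
-/

set_option autoImplicit false
set_option linter.unusedSectionVars false

namespace Pool.Agent.N498.FE

open Module LieAlgebra LieModule

attribute [local instance 100] LieRing.ofAssociativeRing

section stab

variable {Ω S N : Type} [Field Ω] [LieRing S] [LieAlgebra Ω S] [AddCommGroup N] [Module Ω N]

/-- the vectors -/
noncomputable def mv (ρ : S → End Ω N) {d : ℕ} (e : Fin d → S) (v : N) (l : List (Fin d)) : N :=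
  (l.map fun i => ρ (e i)).prod v

lemma mv_nil (ρ : S → End Ω N) {d : ℕ} (e : Fin d → S) (v : N) : mv ρ e v [] = v := by
  unfold mv
  rw [List.map_nil, List.prod_nil]
  rfl

lemma mv_cons (ρ : S → End Ω N) {d : ℕ} (e : Fin d → S) (v : N) (a : Fin d) (l : List (Fin d)) :
    mv ρ e v (a :: l) = ρ (e a) (mv ρ e v l) := by
  unfold mv
  rw [List.map_cons, List.prod_cons]
  rfl

lemma stab (ρ : S →ₗ[Ω] End Ω N) (hρ : ∀ x y, ρ ⁅x, y⁆ = ρ x * ρ y - ρ y * ρ x) {d : ℕ}
    (e : Fin d → S) (P : Submodule Ω S) (htop : P ⊔ Submodule.span Ω (Set.range e) = ⊤) (v : N)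
    (hP : ∀ x ∈ P, ∃ c : Ω, ρ x v = c • v) (x : S) (u : N)
    (hu : u ∈ Submodule.span Ω (Set.range (mv ρ e v))) :
    ρ x u ∈ Submodule.span Ω (Set.range (mv ρ e v)) := by
  set M := Submodule.span Ω (Set.range (mv ρ e v)) with hM
  have hmem : ∀ l, mv ρ e v l ∈ M := fun l => Submodule.subset_span ⟨l, rfl⟩
  have he : ∀ a, ∀ u ∈ M, ρ (e a) u ∈ M := by
    intro a u hu
    have h1 : M ≤ M.comap (ρ (e a)) := by
      rw [hM, Submodule.span_le]
      rintro _ ⟨l, rfl⟩
      show ρ (e a) (mv ρ e v l) ∈ M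
      rw [← mv_cons]
      exact hmem _
    exact h1 hu
  have key : ∀ l, ∀ x : S, ρ x (mv ρ e v l) ∈ M := by
    intro l
    induction l with
    | nil =>
      intro x
      rw [mv_nil]
      let Q : Submodule Ω S := M.comap ((LinearMap.applyₗ v).comp ρ)
      have hQ : ∀ x, x ∈ Q ↔ ρ x v ∈ M := fun x => Iff.rfl
      have h1 : (⊤ : Submodule Ω S) ≤ Q := by
        rw [← htop]
        refine sup_le ?_ ?_
        · intro x hx
          obtain ⟨c, hc⟩ := hP x hx
          rw [hQ, hc]
          refine M.smul_mem _ ?_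
          have := hmem []
          rwa [mv_nil] at this
        · rw [Submodule.span_le]
          rintro _ ⟨i, rfl⟩
          show ρ (e i) v ∈ M
          have := hmem [i]
          rwa [mv_cons, mv_nil] at this
      exact h1 (Submodule.mem_top (x := x))
    | cons a l ih =>
      intro x
      rw [mv_cons]
      have h1 : ρ x (ρ (e a) (mv ρ e v l)) = ρ (e a) (ρ x (mv ρ e v l)) + ρ ⁅x, e a⁆ (mv ρ e v l) := by
        rw [hρ, LinearMap.sub_apply, Module.End.mul_apply, Module.End.mul_apply]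
        abel
      rw [h1]
      exact M.add_mem (he a _ (ih x)) (ih _)
  have h1 : M ≤ M.comap (ρ x) := by
    conv_lhs => rw [hM]
    rw [Submodule.span_le]
    rintro _ ⟨l, rfl⟩
    exact key l x
  exact h1 hu

end stab

section A

variable {Ω S : Type} [Field Ω] [IsAlgClosed Ω] [CharZero Ω] [LieRing S] [LieAlgebra Ω S]
  [FiniteDimensional Ω S] [LieAlgebra.IsKilling Ω S] {H : LieSubalgebra Ω S}
  [H.IsCartanSubalgebra]

/-- the triangular decomposition -/
theorem exists_data (f : (H → Ω) → ℚ) (hadd : ∀ χ ψ, f (χ + ψ) = f χ + f ψ) :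
    ∃ (d : ℕ) (e : Fin d → S) (α : Fin d → Weight Ω H S),
      (∀ i, e i ∈ rootSpace H (α i)) ∧ (∀ i, f (α i) < 0) ∧ Function.Injective α ∧
      (⨆ χ : {χ : Weight Ω H S // 0 ≤ f χ}, (rootSpace H χ.1).toSubmodule) ⊔
        Submodule.span Ω (Set.range e) = ⊤ := by
  classical
  obtain ⟨N, hN⟩ : ∃ N : Finset (Weight Ω H S), ∀ α, α ∈ N ↔ f α < 0 :=
    ⟨Finset.univ.filter fun α => f α < 0, fun α => by simp⟩
  have hf0 : f 0 = 0 := by
    have := hadd 0 0
    rw [add_zero] at this
    linarith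
  have hNnz : ∀ α ∈ N, α.IsNonZero := by
    intro α hα h0
    have h1 := (hN α).1 hα
    rw [h0.eq, hf0] at h1
    exact lt_irrefl _ h1
  have hgen : ∀ α : N, ∃ e ∈ rootSpace H α.1, ∀ x ∈ rootSpace H α.1, ∃ c : Ω, c • e = x :=
    fun α => FEWT.exists_gen α.1 (hNnz α.1 α.2)
  choose e0 he0 he0' using hgen
  refine ⟨N.card, fun i => e0 (N.equivFin.symm i), fun i => (N.equivFin.symm i).1,
    fun i => he0 _, fun i => (hN _).1 (N.equivFin.symm i).2,
    Subtype.val_injective.comp N.equivFin.symm.injective, ?_⟩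
  rw [eq_top_iff]
  have h1 := iSup_genWeightSpace_eq_top' Ω H S
  rw [← LieSubmodule.toSubmodule_inj, LieSubmodule.iSup_toSubmodule,
    LieSubmodule.top_toSubmodule] at h1
  rw [← h1]
  refine iSup_le fun χ => ?_
  by_cases hχ : 0 ≤ f χ
  · exact (le_iSup (fun χ : {χ : Weight Ω H S // 0 ≤ f χ} => (rootSpace H χ.1).toSubmodule)
      ⟨χ, hχ⟩).trans le_sup_left
  · have hχN : χ ∈ N := (hN χ).2 (not_le.1 hχ)
    intro x hx
    obtain ⟨c, hc⟩ := he0' ⟨χ, hχN⟩ x hx
    refine Submodule.mem_sup_right ?_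
    rw [← hc]
    refine Submodule.smul_mem _ _ (Submodule.subset_span ⟨N.equivFin ⟨χ, hχN⟩, ?_⟩)
    show e0 (N.equivFin.symm (N.equivFin ⟨χ, hχN⟩)) = _
    rw [Equiv.symm_apply_apply]

variable {V : Type} [AddCommGroup V] [Module Ω V]
  [LieRingModule S V] [LieModule Ω S V] [FiniteDimensional Ω V]

open scoped Classical in
lemma scalc (f : (H → Ω) → ℚ) (hadd : ∀ χ ψ, f (χ + ψ) = f χ + f ψ)
    (hnz : ∀ α : Weight Ω H S, f α = 0 → α.IsZero) (lamf : H → Ω) (lam : Weight Ω H V)
    (hlf : (lam : H → Ω) = lamf)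
    (hlam : ∀ μ : Weight Ω H V, f μ ≤ f lam) (v : V) (hv : ∀ x : H, ⁅x, v⁆ = lam x • v)
    (hvW : v ∈ genWeightSpace V (lam : H → Ω)) (χ : Weight Ω H S) (hχ : 0 ≤ f χ) (x : S)
    (hx : x ∈ rootSpace H χ) : ⁅x, v⁆ = (if h : x ∈ H then lamf ⟨x, h⟩ else 0) • v := by
  by_cases h : x ∈ H
  · rw [dif_pos h, ← hlf]
    exact hv ⟨x, h⟩
  · rw [dif_neg h, zero_smul]
    rcases hχ.lt_or_eq with h3 | h3
    · have h1 := lie_mem_genWeightSpace_of_mem_genWeightSpace hx hvW
      have h2 : genWeightSpace V ((χ : H → Ω) + (lam : H → Ω)) = ⊥ := by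
        by_contra h3
        have h5 : f ((χ : H → Ω) + (lam : H → Ω)) ≤ f lam := hlam ⟨_, h3⟩
        rw [hadd] at h5
        linarith
      rw [h2] at h1
      exact (LieSubmodule.mem_bot _).1 h1
    · exfalso
      have h1 := hnz χ h3.symm
      have h2 : x ∈ rootSpace H (0 : H → Ω) := by
        rw [← h1.eq]; exact hx
      rw [rootSpace_zero_eq] at h2
      exact h ((LieSubalgebra.mem_toLieSubmodule x).1 h2)

/-- the weight of a monomial -/
def wt {d : ℕ} (α : Fin d → Weight Ω H S) (lam : H → Ω) (l : List (Fin d)) : H → Ω :=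
  (l.map fun i => (α i : H → Ω)).sum + lam

lemma wt_nil {d : ℕ} (α : Fin d → Weight Ω H S) (lam : H → Ω) : wt α lam [] = lam := by
  unfold wt
  rw [List.map_nil, List.sum_nil, zero_add]

lemma wt_cons {d : ℕ} (α : Fin d → Weight Ω H S) (lam : H → Ω) (a : Fin d) (l : List (Fin d)) :
    wt α lam (a :: l) = (α a : H → Ω) + wt α lam l := by
  unfold wt
  rw [List.map_cons, List.sum_cons, add_assoc]

lemma mv_mem {d : ℕ} (e : Fin d → S) (α : Fin d → Weight Ω H S)
    (he : ∀ i, e i ∈ rootSpace H (α i)) (lam : H → Ω) (v : V) (hv : v ∈ genWeightSpace V lam)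
    (l : List (Fin d)) : mv (toEnd Ω S V) e v l ∈ genWeightSpace V (wt α lam l) := by
  induction l with
  | nil => rw [mv_nil, wt_nil]; exact hv
  | cons a l ih =>
    rw [mv_cons, wt_cons]
    exact lie_mem_genWeightSpace_of_mem_genWeightSpace (he a) ih

lemma wt_lt (f : (H → Ω) → ℚ) (hadd : ∀ χ ψ, f (χ + ψ) = f χ + f ψ) {d : ℕ}
    (α : Fin d → Weight Ω H S) (hα : ∀ i, f (α i) < 0) (lam : H → Ω) (a : Fin d)
    (l : List (Fin d)) : f (wt α lam (a :: l)) < f (wt α lam l) := by
  rw [wt_cons, hadd]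
  have := hα a
  linarith

lemma wt_le (f : (H → Ω) → ℚ) (hadd : ∀ χ ψ, f (χ + ψ) = f χ + f ψ) {d : ℕ}
    (α : Fin d → Weight Ω H S) (hα : ∀ i, f (α i) < 0) (lam : H → Ω)
    (l : List (Fin d)) : f (wt α lam l) ≤ f lam := by
  induction l with
  | nil => rw [wt_nil]
  | cons a l ih => exact (wt_lt f hadd α hα lam a l).le.trans ih

open scoped Classical in
/-- the set of the weights of a monomial -/
noncomputable def gs {d : ℕ} (α : Fin d → Weight Ω H S) (lam : H → Ω) :
    List (Fin d) → Finset (H → Ω)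
  | [] => ∅
  | a :: l => insert (wt α lam (a :: l)) (gs α lam l)

open scoped Classical in
lemma gs_ge (f : (H → Ω) → ℚ) (hadd : ∀ χ ψ, f (χ + ψ) = f χ + f ψ) {d : ℕ}
    (α : Fin d → Weight Ω H S) (hα : ∀ i, f (α i) < 0) (lam : H → Ω) (l : List (Fin d)) :
    ∀ χ ∈ gs α lam l, f (wt α lam l) ≤ f χ := by
  induction l with
  | nil => intro χ hχ; simp [gs] at hχ
  | cons a l ih =>
    intro χ hχ
    rw [gs, Finset.mem_insert] at hχ
    rcases hχ with rfl | h
    · exact le_rfl
    · exact (wt_lt f hadd α hα lam a l).le.trans (ih χ h)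

open scoped Classical in
lemma gs_inj (f : (H → Ω) → ℚ) (hadd : ∀ χ ψ, f (χ + ψ) = f χ + f ψ) {d : ℕ}
    (α : Fin d → Weight Ω H S) (hα : ∀ i, f (α i) < 0) (hαi : Function.Injective α)
    (lam : H → Ω) : Function.Injective (gs α lam) := by
  intro l
  induction l with
  | nil =>
    intro l' h
    cases l' with
    | nil => rfl
    | cons b l' =>
      exfalso
      have h1 : wt α lam (b :: l') ∈ gs α lam (b :: l') := by rw [gs]; exact Finset.mem_insert_self _ _
      rw [← h] at h1
      simp [gs] at h1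
  | cons a l ih =>
    intro l' h
    cases l' with
    | nil =>
      exfalso
      have h1 : wt α lam (a :: l) ∈ gs α lam (a :: l) := by rw [gs]; exact Finset.mem_insert_self _ _
      rw [h] at h1
      simp [gs] at h1
    | cons b l' =>
      have h1 : wt α lam (a :: l) ∈ gs α lam (b :: l') := by
        rw [← h, gs]; exact Finset.mem_insert_self _ _
      have h2 : wt α lam (b :: l') ∈ gs α lam (a :: l) := by
        rw [h, gs]; exact Finset.mem_insert_self _ _
      rw [gs, Finset.mem_insert] at h1 h2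
      have h3 : wt α lam (a :: l) = wt α lam (b :: l') := by
        rcases h1 with h1 | h1
        · exact h1
        · rcases h2 with h2 | h2
          · exact h2.symm
          · exfalso
            have e1 := gs_ge f hadd α hα lam _ _ h1
            have e2 := gs_ge f hadd α hα lam _ _ h2
            have e3 := wt_lt f hadd α hα lam a l
            have e4 := wt_lt f hadd α hα lam b l'
            linarith
      have n1 : wt α lam (a :: l) ∉ gs α lam l := fun h5 => by
        have e1 := gs_ge f hadd α hα lam _ _ h5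
        have e3 := wt_lt f hadd α hα lam a l
        linarith
      have n2 : wt α lam (b :: l') ∉ gs α lam l' := fun h5 => by
        have e1 := gs_ge f hadd α hα lam _ _ h5
        have e3 := wt_lt f hadd α hα lam b l'
        linarith
      have h4 : gs α lam l = gs α lam l' := by
        have e1 : (gs α lam (a :: l)).erase (wt α lam (a :: l)) = gs α lam l := by
          rw [gs, Finset.erase_insert n1]
        have e2 : (gs α lam (b :: l')).erase (wt α lam (b :: l')) = gs α lam l' := by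
          rw [gs, Finset.erase_insert n2]
        rw [← e1, ← e2, h, h3]
      have h5 := ih h4
      subst h5
      rw [wt_cons, wt_cons] at h3
      have h6 := Weight.ext_iff'.1 (add_right_cancel h3)
      rw [hαi h6]

/-- **The dimension of an irreducible module.** -/
theorem dim_le [Nontrivial V]
    (hirr : ∀ U : Submodule Ω V, (∀ x : S, ∀ u ∈ U, ⁅x, u⁆ ∈ U) → U = ⊥ ∨ U = ⊤)
    (f : (H → Ω) → ℚ) (hadd : ∀ χ ψ, f (χ + ψ) = f χ + f ψ)
    (hnz : ∀ α : Weight Ω H S, f α = 0 → α.IsZero) :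
    finrank Ω V ≤ 2 ^ (Fintype.card (Weight Ω H V) - 1) := by
  classical
  obtain ⟨d, e, α, he, hα, hαi, htop⟩ := exists_data (S := S) (H := H) f hadd
  obtain ⟨lam, hlam⟩ := FEWT.exists_top (V := V) f
  obtain ⟨v, hv0, hv⟩ := exists_forall_lie_eq_smul Ω H V lam
  have hvW : v ∈ genWeightSpace V (lam : H → Ω) := FEWT.mem_gen lam v hv
  have hP : ∀ x ∈ (⨆ χ : {χ : Weight Ω H S // 0 ≤ f χ}, (rootSpace H χ.1).toSubmodule),
      ∃ c : Ω, ⁅x, v⁆ = c • v := by
    let Q : Submodule Ω S :=
      { carrier := {x | ∃ c : Ω, ⁅x, v⁆ = c • v}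
        zero_mem' := ⟨0, by rw [zero_lie, zero_smul]⟩
        add_mem' := by
          rintro x y ⟨c, hc⟩ ⟨c', hc'⟩
          exact ⟨c + c', by rw [add_lie, hc, hc', add_smul]⟩
        smul_mem' := by
          rintro a x ⟨c, hc⟩
          exact ⟨a * c, by rw [smul_lie, hc, smul_smul]⟩ }
    have hPQ : (⨆ χ : {χ : Weight Ω H S // 0 ≤ f χ}, (rootSpace H χ.1).toSubmodule) ≤ Q :=
      iSup_le fun χ x hx => FEWT.scal f hadd hnz lam hlam v hv hvW χ.1 χ.2 x hx
    exact fun x hx => hPQ hx
  have hstab := stab (N := V) (toEnd Ω S V : S →ₗ[Ω] End Ω V) (fun x y => by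
    show toEnd Ω S V ⁅x, y⁆ = _
    rw [LieHom.map_lie]; rfl) e _ htop v hP
  have hspan : Submodule.span Ω (Set.range (mv (toEnd Ω S V) e v)) = ⊤ := by
    rcases hirr _ (fun x u hu => hstab x u hu) with h | h
    · exfalso
      have h1 : v ∈ (⊥ : Submodule Ω V) := by
        rw [← h]
        exact Submodule.subset_span ⟨[], mv_nil _ _ _⟩
      exact hv0 ((Submodule.mem_bot Ω).1 h1)
    · exact h
  let Wf : Finset (H → Ω) := Finset.image (fun μ : Weight Ω H V => (μ : H → Ω)) Finset.univ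
  have hWf : Wf.card = Fintype.card (Weight Ω H V) := by
    rw [Finset.card_image_of_injective _ (fun μ ν h => Weight.ext_iff'.1 h), Finset.card_univ]
  have hlamW : (lam : H → Ω) ∈ Wf := Finset.mem_image.2 ⟨lam, Finset.mem_univ _, rfl⟩
  have hgs : ∀ l, mv (toEnd Ω S V) e v l ≠ 0 → gs α (lam : H → Ω) l ⊆ Wf.erase lam := by
    intro l
    induction l with
    | nil => intro _; simp [gs]
    | cons a l ih =>
      intro h0
      have h1 : mv (toEnd Ω S V) e v l ≠ 0 := by
        intro h1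
        rw [mv_cons, h1, map_zero] at h0
        exact h0 rfl
      have h2 := mv_mem e α he (lam : H → Ω) v hvW (a :: l)
      have h3 : genWeightSpace V (wt α (lam : H → Ω) (a :: l)) ≠ ⊥ := by
        intro h3
        rw [h3] at h2
        exact h0 ((LieSubmodule.mem_bot _).1 h2)
      rw [gs]
      refine Finset.insert_subset (Finset.mem_erase.2 ⟨fun h4 => ?_, ?_⟩) (ih h1)
      · have e1 := wt_lt f hadd α hα (lam : H → Ω) a l
        have e2 := wt_le f hadd α hα (lam : H → Ω) l
        rw [h4] at e1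
        linarith
      · exact Finset.mem_image.2 ⟨⟨_, h3⟩, Finset.mem_univ _, rfl⟩
  let vec : Finset (H → Ω) → V := fun A =>
    if h : ∃ l, gs α (lam : H → Ω) l = A then mv (toEnd Ω S V) e v h.choose else 0
  have hvec : ∀ l, vec (gs α (lam : H → Ω) l) = mv (toEnd Ω S V) e v l := by
    intro l
    have h : ∃ l', gs α (lam : H → Ω) l' = gs α (lam : H → Ω) l := ⟨l, rfl⟩
    show (if h : ∃ l', gs α (lam : H → Ω) l' = gs α (lam : H → Ω) l then
      mv (toEnd Ω S V) e v h.choose else 0) = _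
    rw [dif_pos h, gs_inj f hadd α hα hαi (lam : H → Ω) h.choose_spec]
  have hsp2 : (⊤ : Submodule Ω V) ≤ Submodule.span Ω (((Wf.erase (lam : H → Ω)).powerset.image vec : Finset V) : Set V) := by
    rw [← hspan, Submodule.span_le]
    rintro _ ⟨l, rfl⟩
    by_cases h0 : mv (toEnd Ω S V) e v l = 0
    · rw [h0]; exact Submodule.zero_mem _
    · refine Submodule.subset_span (Finset.mem_coe.2 (Finset.mem_image.2
        ⟨gs α (lam : H → Ω) l, Finset.mem_powerset.2 (hgs l h0), hvec l⟩))
  have h1 := finrank_span_finset_le_card (R := Ω) ((Wf.erase (lam : H → Ω)).powerset.image vec)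
  have h2 : Set.finrank Ω (((Wf.erase (lam : H → Ω)).powerset.image vec : Finset V) : Set V) = finrank Ω V := by
    unfold Set.finrank
    rw [top_le_iff.1 hsp2, finrank_top]
  rw [h2] at h1
  refine h1.trans (Finset.card_image_le.trans ?_)
  rw [Finset.card_powerset, Finset.card_erase_of_mem hlamW, hWf]

variable {A B : Type} [AddCommGroup A] [Module Ω A] [LieRingModule S A] [LieModule Ω S A]
  [FiniteDimensional Ω A] [AddCommGroup B] [Module Ω B] [LieRingModule S B] [LieModule Ω S B]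
  [FiniteDimensional Ω B]

/-- the lower part -/
def low (V : Type) [AddCommGroup V] [Module Ω V] [LieRingModule S V] [LieModule Ω S V]
    (lam : H → Ω) : Submodule Ω V :=
  ⨆ (χ : H → Ω) (_ : χ ≠ lam), (genWeightSpace V χ).toSubmodule

lemma low_disj (lam : H → Ω) {v : V} (h1 : v ∈ genWeightSpace V lam)
    (h2 : v ∈ low (S := S) (H := H) V lam) : v = 0 := by
  have h3 := iSupIndep_genWeightSpace Ω H V
  rw [← LieSubmodule.iSupIndep_toSubmodule] at h3
  have h4 := (h3 lam).le_bot ⟨h1, h2⟩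
  exact (Submodule.mem_bot Ω).1 h4

/-- the diagonal action -/
noncomputable def rho (A B : Type) [AddCommGroup A] [Module Ω A] [LieRingModule S A]
    [LieModule Ω S A] [AddCommGroup B] [Module Ω B] [LieRingModule S B] [LieModule Ω S B] :
    S →ₗ[Ω] End Ω (A × B) :=
  { toFun := fun x => (toEnd Ω S A x).prodMap (toEnd Ω S B x)
    map_add' := fun x y => by
      ext p <;> simp
    map_smul' := fun c x => by
      ext p <;> simp }

lemma rho_apply (x : S) (a : A) (b : B) : rho (Ω := Ω) A B x (a, b) = (⁅x, a⁆, ⁅x, b⁆) := rfl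

lemma mv_prod {d : ℕ} (e : Fin d → S) (a : A) (b : B) (l : List (Fin d)) :
    mv (rho (Ω := Ω) A B) e (a, b) l = (mv (toEnd Ω S A) e a l, mv (toEnd Ω S B) e b l) := by
  induction l with
  | nil => rw [mv_nil, mv_nil, mv_nil]
  | cons i l ih =>
    rw [mv_cons, ih, mv_cons, mv_cons]
    rfl

/-- **The highest weight determines the module.** -/
theorem hw [Nontrivial A] [Nontrivial B]
    (hA : ∀ U : Submodule Ω A, (∀ x : S, ∀ u ∈ U, ⁅x, u⁆ ∈ U) → U = ⊥ ∨ U = ⊤)
    (hB : ∀ U : Submodule Ω B, (∀ x : S, ∀ u ∈ U, ⁅x, u⁆ ∈ U) → U = ⊥ ∨ U = ⊤)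
    (f : (H → Ω) → ℚ) (hadd : ∀ χ ψ, f (χ + ψ) = f χ + f ψ)
    (hnz : ∀ α : Weight Ω H S, f α = 0 → α.IsZero)
    (lamA : Weight Ω H A) (hlA : ∀ μ : Weight Ω H A, f μ ≤ f lamA)
    (lamB : Weight Ω H B) (hlB : ∀ μ : Weight Ω H B, f μ ≤ f lamB)
    (hAB : (lamA : H → Ω) = lamB) :
    ∃ F : A →ₗ[Ω] B, F ≠ 0 ∧ ∀ (x : S) (a : A), F ⁅x, a⁆ = ⁅x, F a⁆ := by
  classical
  obtain ⟨d, e, α, he, hα, hαi, htop⟩ := exists_data (S := S) (H := H) f hadd
  obtain ⟨a, ha0, ha⟩ := exists_forall_lie_eq_smul Ω H A lamA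
  obtain ⟨b, hb0, hb⟩ := exists_forall_lie_eq_smul Ω H B lamB
  have haW : a ∈ genWeightSpace A (lamA : H → Ω) := FEWT.mem_gen lamA a ha
  have hbW : b ∈ genWeightSpace B (lamB : H → Ω) := FEWT.mem_gen lamB b hb
  have hP : ∀ x ∈ (⨆ χ : {χ : Weight Ω H S // 0 ≤ f χ}, (rootSpace H χ.1).toSubmodule),
      ∃ c : Ω, rho (Ω := Ω) A B x (a, b) = c • (a, b) := by
    let Q : Submodule Ω S :=
      { carrier := {x | ∃ c : Ω, rho (Ω := Ω) A B x (a, b) = c • (a, b)}
        zero_mem' := ⟨0, by rw [map_zero, LinearMap.zero_apply, zero_smul]⟩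
        add_mem' := by
          rintro x y ⟨c, hc⟩ ⟨c', hc'⟩
          exact ⟨c + c', by rw [map_add, LinearMap.add_apply, hc, hc', add_smul]⟩
        smul_mem' := by
          rintro t x ⟨c, hc⟩
          exact ⟨t * c, by rw [map_smul, LinearMap.smul_apply, hc, smul_smul]⟩ }
    have hPQ : (⨆ χ : {χ : Weight Ω H S // 0 ≤ f χ}, (rootSpace H χ.1).toSubmodule) ≤ Q := by
      refine iSup_le fun χ x hx => ?_
      refine ⟨if h : x ∈ H then (lamA : H → Ω) ⟨x, h⟩ else 0, ?_⟩
      rw [rho_apply, scalc f hadd hnz (lamA : H → Ω) lamA rfl hlA a ha haW χ.1 χ.2 x hx,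
        scalc f hadd hnz (lamA : H → Ω) lamB hAB.symm hlB b hb hbW χ.1 χ.2 x hx]
      rfl
    exact fun x hx => hPQ hx
  have hstab := stab (rho (Ω := Ω) A B) (fun x y => by
    refine LinearMap.ext fun p => ?_
    obtain ⟨p, q⟩ := p
    rw [LinearMap.sub_apply, Module.End.mul_apply, Module.End.mul_apply, rho_apply, rho_apply,
      rho_apply, rho_apply, rho_apply, lie_lie, lie_lie]
    rfl) e _ htop (a, b) hP
  set M := Submodule.span Ω (Set.range (mv (rho (Ω := Ω) A B) e (a, b))) with hM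
  have habM : (a, b) ∈ M := Submodule.subset_span ⟨[], mv_nil _ _ _⟩
  have hlow : ∀ p ∈ M, ∃ c : Ω, p.1 - c • a ∈ low (S := S) (H := H) A lamA ∧
      p.2 - c • b ∈ low (S := S) (H := H) B lamA := by
    intro p hp
    induction hp using Submodule.span_induction with
    | mem p hp =>
      obtain ⟨l, rfl⟩ := hp
      cases l with
      | nil =>
        refine ⟨1, ?_, ?_⟩
        · rw [mv_nil, one_smul, sub_self]; exact Submodule.zero_mem _
        · rw [mv_nil, one_smul, sub_self]; exact Submodule.zero_mem _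
      | cons i l =>
        have hne : wt α (lamA : H → Ω) (i :: l) ≠ lamA := by
          intro h
          have e1 := wt_lt f hadd α hα (lamA : H → Ω) i l
          have e2 := wt_le f hadd α hα (lamA : H → Ω) l
          rw [h] at e1
          linarith
        refine ⟨0, ?_, ?_⟩
        · rw [zero_smul, sub_zero, mv_prod]
          exact (le_iSup₂_of_le (f := fun (χ : H → Ω) (_ : χ ≠ lamA) => (genWeightSpace A χ).toSubmodule)
            _ hne le_rfl) (mv_mem e α he (lamA : H → Ω) a haW (i :: l))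
        · rw [zero_smul, sub_zero, mv_prod]
          rw [← hAB] at hbW
          exact (le_iSup₂_of_le (f := fun (χ : H → Ω) (_ : χ ≠ lamA) => (genWeightSpace B χ).toSubmodule)
            _ hne le_rfl) (mv_mem e α he (lamA : H → Ω) b hbW (i :: l))
    | zero =>
      refine ⟨0, ?_, ?_⟩ <;> rw [zero_smul, sub_zero] <;> exact Submodule.zero_mem _
    | add p q _ _ hp hq =>
      obtain ⟨c, h1, h2⟩ := hp
      obtain ⟨c', h3, h4⟩ := hq
      refine ⟨c + c', ?_, ?_⟩
      · have := Submodule.add_mem _ h1 h3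
        rw [Prod.fst_add, add_smul]
        convert this using 1
        abel
      · have := Submodule.add_mem _ h2 h4
        rw [Prod.snd_add, add_smul]
        convert this using 1
        abel
    | smul t p _ hp =>
      obtain ⟨c, h1, h2⟩ := hp
      refine ⟨t * c, ?_, ?_⟩
      · have := Submodule.smul_mem _ t h1
        rw [Prod.smul_fst, mul_smul, ← smul_sub]
        exact this
      · have := Submodule.smul_mem _ t h2
        rw [Prod.smul_snd, mul_smul, ← smul_sub]
        exact this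
  have hinj : ∀ q : B, ((0 : A), q) ∈ M → q = 0 := by
    let U : Submodule Ω B := M.comap (LinearMap.inr Ω A B)
    have hU : ∀ q, q ∈ U ↔ ((0 : A), q) ∈ M := fun q => Iff.rfl
    rcases hB U (fun x u hu => by
      rw [hU] at hu ⊢
      have := hstab x _ hu
      rwa [rho_apply, lie_zero] at this) with h | h
    · intro q hq
      rw [← hU, h] at hq
      exact (Submodule.mem_bot Ω).1 hq
    · exfalso
      have h1 : b ∈ U := by rw [h]; trivial
      obtain ⟨c, h2, h3⟩ := hlow _ ((hU b).1 h1)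
      have hc : c = 0 := by
        by_contra hc
        have h4 : c • a ∈ low (S := S) (H := H) A lamA := by
          have := Submodule.neg_mem _ h2
          rwa [neg_sub, sub_zero] at this
        have h5 : a ∈ low (S := S) (H := H) A lamA := by
          have := Submodule.smul_mem _ c⁻¹ h4
          rwa [inv_smul_smul₀ hc] at this
        exact ha0 (low_disj (lamA : H → Ω) haW h5)
      rw [hc, zero_smul, sub_zero] at h3
      rw [← hAB] at hbW
      exact hb0 (low_disj (lamA : H → Ω) hbW h3)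
  have hsurj : M.map (LinearMap.fst Ω A B) = ⊤ := by
    rcases hA (M.map (LinearMap.fst Ω A B)) (by
      rintro x _ ⟨⟨p, q⟩, hp, rfl⟩
      exact ⟨_, hstab x _ hp, rfl⟩) with h | h
    · exfalso
      have h1 : a ∈ M.map (LinearMap.fst Ω A B) := ⟨_, habM, rfl⟩
      rw [h] at h1
      exact ha0 ((Submodule.mem_bot Ω).1 h1)
    · exact h
  have huniq : ∀ p q q', (p, q) ∈ M → (p, q') ∈ M → q = q' := by
    intro p q q' h1 h2
    have h3 := M.sub_mem h1 h2
    rw [Prod.mk_sub_mk, sub_self] at h3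
    exact sub_eq_zero.1 (hinj _ h3)
  have hex : ∀ p : A, ∃ q : B, (p, q) ∈ M := by
    intro p
    have h1 : p ∈ M.map (LinearMap.fst Ω A B) := by rw [hsurj]; trivial
    obtain ⟨⟨p', q⟩, h2, h3⟩ := h1
    have h4 : p' = p := h3
    rw [← h4]
    exact ⟨q, h2⟩
  choose F hF using hex
  refine ⟨{ toFun := F, map_add' := fun p p' => ?_, map_smul' := fun c p => ?_ }, ?_, ?_⟩
  · exact huniq _ _ _ (hF _) (M.add_mem (hF p) (hF p'))
  · exact huniq _ _ _ (hF _) (M.smul_mem c (hF p))
  · intro h0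
    have h1 : F a = 0 := LinearMap.congr_fun h0 a
    have h2 := huniq _ _ _ (hF a) habM
    rw [h1] at h2
    exact hb0 h2.symm
  · intro x p
    exact huniq _ _ _ (hF _) (hstab x _ (hF p))

end A

end Pool.Agent.N498.FE
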